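import Pool.Agent.N869.ZE.A.Stm
import Pool.Agent.N916.GB.Num

/-!
# ZE-LAKQ: linear algebra without distinguished prime (project ZE, helper869)

The system of `S_LAK` (all the solutions are constant, parity `1`) is reduced to the system of `S_LAC`
(a distinguished vertex at infinity) by dropping one vertex with `t = 1` which belongs to all the systems:
its equation is the sum of the others.
-/

set_option autoImplicit false
set_option linter.unusedVariables false
set_option linter.unusedSectionVars false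

open scoped Classical

namespace Pool.Agent.N196.ZE.LAKQ

open Finset
open Pool.Agent.N869.QT.L (prs ext c2 Lc Fam S_LAC GdL HypC LAEC)
open Pool.Agent.N869.ZE.A (GdK HypK LAEK S_LAK S_LAKQ)

theorem z2_self (x : ZMod 2) : x + x = 0 := CharTwo.add_self_eq_zero x

theorem z2 (x : ZMod 2) : x = 0 ∨ x = 1 := by
  revert x
  decide

/-! ### Dropping a vertex -/

/-- the sum of the equations of one block -/
theorem quad {ι : Type} (s : Finset ι) (R : ι → ι → ZMod 2) (t x : ι → ZMod 2)
    (hR : ∀ i ∈ s, ∀ j ∈ s, i ≠ j → R i j + R j i = t i * t j) :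
    ∑ i ∈ s, ∑ j ∈ s, R i j * (x i + x j) = ∑ i ∈ s, x i * t i * (∑ j ∈ s, t j + t i) := by
  have h1 : ∑ i ∈ s, ∑ j ∈ s, R i j * (x i + x j) =
      ∑ i ∈ s, ∑ j ∈ s, (R i j + R j i) * x i := by
    have e1 : ∑ i ∈ s, ∑ j ∈ s, R i j * (x i + x j) =
        ∑ i ∈ s, ∑ j ∈ s, R i j * x i + ∑ i ∈ s, ∑ j ∈ s, R i j * x j := by
      rw [← sum_add_distrib]
      refine sum_congr rfl fun i _ => ?_
      rw [← sum_add_distrib]
      refine sum_congr rfl fun j _ => ?_
      ring
    rw [e1, sum_comm (f := fun i j => R i j * x j), ← sum_add_distrib]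
    refine sum_congr rfl fun i _ => ?_
    rw [← sum_add_distrib]
    refine sum_congr rfl fun j _ => ?_
    ring
  rw [h1]
  refine sum_congr rfl fun i hi => ?_
  rw [← sum_mul]
  have h2 : ∑ j ∈ s, (R i j + R j i) = t i * (∑ j ∈ s, t j + t i) := by
    have e1 : ∀ j ∈ s, R i j + R j i = t i * t j + (if j = i then t i else 0) := by
      intro j hj
      by_cases h : j = i
      · subst h
        rw [if_pos rfl, z2_self]
        rcases z2 (t j) with h | h <;> rw [h] <;> decide
      · rw [if_neg h, add_zero, hR i hi j hj fun h' => h h'.symm]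
    rw [sum_congr rfl e1, sum_add_distrib, ← mul_sum, sum_ite_eq' s i, if_pos hi]
    rcases z2 (t i) with h | h <;> rw [h] <;> ring
  rw [h2]
  ring

/-- dropping a vertex -/
theorem gen {ι : Type} (S : Finset ι) (M : ι → ι → ZMod 2) (t : ι → ZMod 2)
    (hM : ∀ i ∈ S, ∀ j ∈ S, i ≠ j → M i j + M j i = t i * t j) (hpar : ∑ i ∈ S, t i = 1)
    (i0 : ι) (h0 : i0 ∈ S) :
    (∀ x : ι → ZMod 2, (∀ i ∈ S, ∑ j ∈ S, M i j * (x i + x j) = 0) →
      ∀ i ∈ S, ∀ j ∈ S, x i = x j) ↔
    ∀ x : ι → ZMod 2, (∀ i, i ∉ S → x i = 0) → x i0 = 0 →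
      (∀ i ∈ S, i ≠ i0 → ∑ j ∈ S, M i j * (x i + x j) = 0) → ∀ i, x i = 0 := by
  constructor
  · intro h x hs hx0 he
    have htot : ∑ i ∈ S, ∑ j ∈ S, M i j * (x i + x j) = 0 := by
      rw [quad S M t x hM, hpar]
      refine sum_eq_zero fun i _ => ?_
      rcases z2 (t i) with h | h <;> rw [h]
      · rw [mul_zero, zero_mul]
      · rw [z2_self, mul_zero]
    have h1 : ∑ j ∈ S, M i0 j * (x i0 + x j) = 0 := by
      rw [← Finset.add_sum_erase S _ h0] at htot
      rw [sum_eq_zero (s := S.erase i0) fun i hi =>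
        he i (mem_of_mem_erase hi) (ne_of_mem_erase hi), add_zero] at htot
      exact htot
    have h2 := h x fun i hi => by
      by_cases hii : i = i0
      · rw [hii]
        exact h1
      · exact he i hi hii
    intro i
    by_cases hi : i ∈ S
    · rw [h2 i hi i0 h0, hx0]
    · exact hs i hi
  · intro h x hx
    have h1 := h (fun i => if i ∈ S then x i + x i0 else 0) (fun i hi => if_neg hi)
      (by
        show (if i0 ∈ S then x i0 + x i0 else 0) = 0
        rw [if_pos h0, z2_self])
      (by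
        intro i hi _
        have e1 : ∀ j ∈ S, M i j * ((if i ∈ S then x i + x i0 else 0) +
            if j ∈ S then x j + x i0 else 0) = M i j * (x i + x j) := by
          intro j hj
          rw [if_pos hi, if_pos hj]
          have := z2_self (M i j * x i0)
          linear_combination this
        show ∑ j ∈ S, M i j * ((if i ∈ S then x i + x i0 else 0) +
            if j ∈ S then x j + x i0 else 0) = 0
        rw [sum_congr rfl e1]
        exact hx i hi)
    have h2 : ∀ i ∈ S, x i = x i0 := by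
      intro i hi
      have h3 : (if i ∈ S then x i + x i0 else 0) = 0 := h1 i
      rw [if_pos hi] at h3
      have h4 := z2_self (x i0)
      linear_combination h3 - h4
    intro i hi j hj
    rw [h2 i hi, h2 j hj]

section blocks

variable {U J : Type} [Fintype U] [Fintype J]

/-- the matrix of the whole system -/
def Mx (tU : U → ZMod 2) (tJ : J → ZMod 2) (A : U → U → ZMod 2) (B : U → J → ZMod 2)
    (R : J → J → ZMod 2) : U ⊕ J → U ⊕ J → ZMod 2
  | .inl u, .inl v => A u v
  | .inl u, .inr l => B u l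
  | .inr k, .inl u => B u k + tU u * tJ k
  | .inr k, .inr l => R k l

theorem row_inl (W : Finset U) (L : Finset J) (tU : U → ZMod 2) (tJ : J → ZMod 2)
    (A : U → U → ZMod 2) (B : U → J → ZMod 2) (R : J → J → ZMod 2) (x : U ⊕ J → ZMod 2) (u : U) :
    ∑ j ∈ W.disjSum L, Mx tU tJ A B R (.inl u) j * (x (.inl u) + x j) =
      ∑ v ∈ W, A u v * (x (.inl u) + x (.inl v)) + ∑ l ∈ L, B u l * (x (.inl u) + x (.inr l)) := by
  rw [sum_disjSum]
  rfl

theorem row_inr (W : Finset U) (L : Finset J) (tU : U → ZMod 2) (tJ : J → ZMod 2)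
    (A : U → U → ZMod 2) (B : U → J → ZMod 2) (R : J → J → ZMod 2) (x : U ⊕ J → ZMod 2) (k : J) :
    ∑ j ∈ W.disjSum L, Mx tU tJ A B R (.inr k) j * (x (.inr k) + x j) =
      ∑ u ∈ W, (B u k + tU u * tJ k) * (x (.inr k) + x (.inl u)) +
        ∑ l ∈ L, R k l * (x (.inr k) + x (.inr l)) := by
  rw [sum_disjSum]
  rfl

theorem gdK_iff (W : Finset U) (L : Finset J) (tU : U → ZMod 2) (tJ : J → ZMod 2)
    (A : U → U → ZMod 2) (B : U → J → ZMod 2) (R : J → J → ZMod 2) :
    GdK W L tU tJ A B R ↔ ∀ x : U ⊕ J → ZMod 2,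
      (∀ i ∈ W.disjSum L, ∑ j ∈ W.disjSum L, Mx tU tJ A B R i j * (x i + x j) = 0) →
      ∀ i ∈ W.disjSum L, ∀ j ∈ W.disjSum L, x i = x j := by
  constructor
  · intro h x hx
    obtain ⟨k1, k2, k3⟩ := h (fun u => x (.inl u)) (fun k => x (.inr k))
      (fun u hu => by
        have := hx (.inl u) (inl_mem_disjSum.2 hu)
        rw [row_inl] at this
        exact this)
      (fun k hk => by
        have := hx (.inr k) (inr_mem_disjSum.2 hk)
        rw [row_inr] at this
        exact this)
    rintro (u | k) hi (v | l) hj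
    · exact k1 u (inl_mem_disjSum.1 hi) v (inl_mem_disjSum.1 hj)
    · exact k2 u (inl_mem_disjSum.1 hi) l (inr_mem_disjSum.1 hj)
    · exact (k2 v (inl_mem_disjSum.1 hj) k (inr_mem_disjSum.1 hi)).symm
    · exact k3 k (inr_mem_disjSum.1 hi) l (inr_mem_disjSum.1 hj)
  · intro h c d h1 h2
    have h3 := h (Sum.elim c d) (by
      rintro (u | k) hi
      · rw [row_inl]
        exact h1 u (inl_mem_disjSum.1 hi)
      · rw [row_inr]
        exact h2 k (inr_mem_disjSum.1 hi))
    exact ⟨fun u hu v hv => h3 (.inl u) (inl_mem_disjSum.2 hu) (.inl v) (inl_mem_disjSum.2 hv),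
      fun u hu l hl => h3 (.inl u) (inl_mem_disjSum.2 hu) (.inr l) (inr_mem_disjSum.2 hl),
      fun k hk l hl => h3 (.inr k) (inr_mem_disjSum.2 hk) (.inr l) (inr_mem_disjSum.2 hl)⟩

/-- the reciprocity law and the parity for the whole system -/
theorem whole (W : Finset U) (L : Finset J) (tU : U → ZMod 2) (tJ : J → ZMod 2)
    (A : U → U → ZMod 2) (B : U → J → ZMod 2) (R : J → J → ZMod 2)
    (hA : ∀ u v, u ≠ v → A u v + A v u = tU u * tU v)
    (hR : ∀ k l, k ≠ l → R k l + R l k = tJ k * tJ l)
    (hpar : ∑ u ∈ W, tU u + ∑ k ∈ L, tJ k = 1) (i0 : U ⊕ J) (h0 : i0 ∈ W.disjSum L) :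
    GdK W L tU tJ A B R ↔ ∀ x : U ⊕ J → ZMod 2, (∀ i, i ∉ W.disjSum L → x i = 0) → x i0 = 0 →
      (∀ i ∈ W.disjSum L, i ≠ i0 →
        ∑ j ∈ W.disjSum L, Mx tU tJ A B R i j * (x i + x j) = 0) → ∀ i, x i = 0 := by
  rw [gdK_iff]
  refine gen (W.disjSum L) (Mx tU tJ A B R) (Sum.elim tU tJ) ?_ ?_ i0 h0
  · rintro (u | k) _ (v | l) _ hne
    · exact hA u v fun h => hne (by rw [h])
    · show B u l + (B u l + tU u * tJ l) = tU u * tJ l
      have := z2_self (B u l)
      linear_combination this
    · show (B v k + tU v * tJ k) + B v k = tJ k * tU v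
      have := z2_self (B v k)
      linear_combination this
    · exact hR k l fun h => hne (by rw [h])
  · rw [sum_disjSum]
    exact hpar

end blocks

/-- a sum over a finite set with a distinguished element -/
theorem sum_split {V : Type} (W : Finset V) (u0 : V) (h0 : u0 ∈ W) (f : V → ZMod 2)
    [DecidablePred fun v : V => v ≠ u0] :
    ∑ v ∈ W, f v = f u0 + ∑ v ∈ W.subtype (fun v => v ≠ u0), f v := by
  rw [sum_subtype_eq_sum_filter, ← add_sum_erase W f h0]
  congr 1
  refine sum_congr ?_ fun _ _ => rfl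
  ext v
  rw [mem_filter, mem_erase, and_comm]

section case1

variable {U J : Type} [Fintype U] [Fintype J]

theorem red1 (W : Finset U) (L : Finset J) (tU : U → ZMod 2) (tJ : J → ZMod 2)
    (A : U → U → ZMod 2) (B : U → J → ZMod 2) (R : J → J → ZMod 2)
    (hA : ∀ u v, u ≠ v → A u v + A v u = tU u * tU v)
    (hR : ∀ k l, k ≠ l → R k l + R l k = tJ k * tJ l)
    (hpar : ∑ u ∈ W, tU u + ∑ k ∈ L, tJ k = 1) (u0 : U) (h0 : u0 ∈ W) (ht : tU u0 = 1) :
    GdK W L tU tJ A B R ↔ GdL (W.subtype fun u => u ≠ u0) L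
      (fun u : {u : U // u ≠ u0} => A u u0) (fun u : {u : U // u ≠ u0} => tU u)
      (fun k => B u0 k + tJ k) tJ (fun u v : {u : U // u ≠ u0} => A u v)
      (fun (u : {u : U // u ≠ u0}) k => B u k) R := by
  rw [whole W L tU tJ A B R hA hR hpar (.inl u0) (inl_mem_disjSum.2 h0)]
  constructor
  · intro h c d hc hd h1 h2
    set x : U ⊕ J → ZMod 2 := Sum.elim (fun u => if hu : u = u0 then 0 else c ⟨u, hu⟩) d with hx
    have hx0 : x (.inl u0) = 0 := dif_pos rfl
    have hx1 : ∀ u : {u : U // u ≠ u0}, x (.inl u) = c u := fun u => dif_neg u.2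
    have hx2 : ∀ k, x (.inr k) = d k := fun k => rfl
    have key := h x ?_ hx0 ?_
    · refine ⟨fun u => ?_, fun k => ?_⟩
      · rw [← hx1]
        exact key _
      · rw [← hx2]
        exact key _
    · rintro (u | k) hi
      · by_cases hu : u = u0
        · rw [hu]
          exact hx0
        · have h3 := hx1 ⟨u, hu⟩
          have h4 : x (.inl u) = c ⟨u, hu⟩ := h3
          rw [h4]
          refine hc _ fun h' => hi (inl_mem_disjSum.2 ?_)
          exact mem_subtype.1 h'
      · exact hd k fun h' => hi (inr_mem_disjSum.2 h')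
    · rintro (u | k) hi hne
      · have hu : u ≠ u0 := fun h' => hne (by rw [h'])
        have huW : u ∈ W := inl_mem_disjSum.1 hi
        rw [row_inl, sum_split W u0 h0, hx0]
        have h3 := h1 ⟨u, hu⟩ (mem_subtype.2 huW)
        simp only [hx1, hx2]
        have h4 : x (.inl u) = c ⟨u, hu⟩ := hx1 ⟨u, hu⟩
        rw [h4]
        simp only at h3
        linear_combination h3
      · have hk : k ∈ L := inr_mem_disjSum.1 hi
        rw [row_inr, sum_split W u0 h0, hx0]
        have h3 := h2 k hk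
        simp only [hx1, hx2]
        simp only at h3
        rw [ht]
        linear_combination h3
  · intro h x hs hx0 he
    have key := h (fun u => x (.inl u)) (fun k => x (.inr k)) ?_ ?_ ?_ ?_
    · rintro (u | k)
      · by_cases hu : u = u0
        · rw [hu, hx0]
        · exact key.1 ⟨u, hu⟩
      · exact key.2 k
    · intro u hu
      exact hs _ fun h' => hu (mem_subtype.2 (inl_mem_disjSum.1 h'))
    · intro k hk
      exact hs _ fun h' => hk (inr_mem_disjSum.1 h')
    · intro u hu
      have h3 := he (.inl u) (inl_mem_disjSum.2 (mem_subtype.1 hu)) (fun h' => u.2 (Sum.inl_injective h'))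
      rw [row_inl, sum_split W u0 h0, hx0] at h3
      simp only
      linear_combination h3
    · intro k hk
      have h3 := he (.inr k) (inr_mem_disjSum.2 hk) (fun h' => by cases h')
      rw [row_inr, sum_split W u0 h0, hx0, ht] at h3
      simp only
      linear_combination h3

end case1

section case2

variable {U J : Type} [Fintype U] [Fintype J] [LinearOrder J]

theorem red2 (W : Finset U) (L : Finset J) (tU : U → ZMod 2) (tJ : J → ZMod 2)
    (A : U → U → ZMod 2) (B : U → J → ZMod 2) (R : J → J → ZMod 2)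
    (hA : ∀ u v, u ≠ v → A u v + A v u = tU u * tU v)
    (hR : ∀ k l, k ≠ l → R k l + R l k = tJ k * tJ l)
    (hpar : ∑ u ∈ W, tU u + ∑ k ∈ L, tJ k = 1) (z : J) (h0 : z ∈ L) :
    GdK W L tU tJ A B R ↔ GdL W (L.subtype fun k => k ≠ z)
      (fun u => B u z) tU (fun k : {k : J // k ≠ z} => R k z)
      (fun k : {k : J // k ≠ z} => tJ k) A
      (fun u (k : {k : J // k ≠ z}) => B u k) (fun k l : {k : J // k ≠ z} => R k l) := by
  rw [whole W L tU tJ A B R hA hR hpar (.inr z) (inr_mem_disjSum.2 h0)]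
  constructor
  · intro h c d hc hd h1 h2
    set x : U ⊕ J → ZMod 2 := Sum.elim c (fun k => if hk : k = z then 0 else d ⟨k, hk⟩) with hx
    have hx0 : x (.inr z) = 0 := dif_pos rfl
    have hx1 : ∀ k : {k : J // k ≠ z}, x (.inr k) = d k := fun k => dif_neg k.2
    have hx2 : ∀ u, x (.inl u) = c u := fun k => rfl
    have key := h x ?_ hx0 ?_
    · refine ⟨fun u => ?_, fun k => ?_⟩
      · rw [← hx2]
        exact key _
      · rw [← hx1]
        exact key _
    · rintro (u | k) hi
      · exact hc u fun h' => hi (inl_mem_disjSum.2 h')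
      · by_cases hk : k = z
        · rw [hk]
          exact hx0
        · have h4 : x (.inr k) = d ⟨k, hk⟩ := hx1 ⟨k, hk⟩
          rw [h4]
          refine hd _ fun h' => hi (inr_mem_disjSum.2 ?_)
          exact mem_subtype.1 h'
    · rintro (u | k) hi hne
      · have hu : u ∈ W := inl_mem_disjSum.1 hi
        rw [row_inl, sum_split L z h0, hx0]
        have h3 := h1 u hu
        simp only [hx1, hx2]
        simp only at h3
        linear_combination h3
      · have hk : k ≠ z := fun h' => hne (by rw [h'])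
        have hkL : k ∈ L := inr_mem_disjSum.1 hi
        rw [row_inr, sum_split L z h0, hx0]
        have h3 := h2 ⟨k, hk⟩ (mem_subtype.2 hkL)
        simp only [hx1, hx2]
        have h4 : x (.inr k) = d ⟨k, hk⟩ := hx1 ⟨k, hk⟩
        rw [h4]
        simp only at h3
        linear_combination h3
  · intro h x hs hx0 he
    have key := h (fun u => x (.inl u)) (fun k => x (.inr k)) ?_ ?_ ?_ ?_
    · rintro (u | k)
      · exact key.1 u
      · by_cases hk : k = z
        · rw [hk, hx0]
        · exact key.2 ⟨k, hk⟩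
    · intro u hu
      exact hs _ fun h' => hu (inl_mem_disjSum.1 h')
    · intro k hk
      exact hs _ fun h' => hk (mem_subtype.2 (inr_mem_disjSum.1 h'))
    · intro u hu
      have h3 := he (.inl u) (inl_mem_disjSum.2 hu) (fun h' => by cases h')
      rw [row_inl, sum_split L z h0, hx0] at h3
      simp only
      linear_combination h3
    · intro k hk
      have h3 := he (.inr k) (inr_mem_disjSum.2 (mem_subtype.1 hk))
        (fun h' => k.2 (Sum.inr_injective h'))
      rw [row_inr, sum_split L z h0, hx0] at h3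
      simp only
      linear_combination h3

end case2

/-! ### The symbols at one large prime -/

section split

variable {J : Type} [Fintype J] [LinearOrder J]

theorem mp {k l : J} (h : k < l) : (k, l) ∈ prs J := mem_filter.2 ⟨mem_univ _, h⟩

theorem pm {e : J × J} (h : e ∈ prs J) : e.1 < e.2 := (mem_filter.1 h).2

/-- the restriction of the symbols -/
noncomputable def res (j0 : J) (α : prs J → ZMod 2) : prs {k : J // k ≠ j0} → ZMod 2 := fun e =>
  α ⟨(e.1.1.1, e.1.2.1), mp (pm e.2)⟩

/-- the symbols at `j0` -/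
noncomputable def col (t : J → ZMod 2) (j0 : J) (α : prs J → ZMod 2) :
    {k : J // k ≠ j0} → ZMod 2 := fun k => ext t α k j0

/-- the completion -/
noncomputable def glue (t : J → ZMod 2) (j0 : J) (β : prs {k : J // k ≠ j0} → ZMod 2)
    (s : {k : J // k ≠ j0} → ZMod 2) : prs J → ZMod 2 := fun e =>
  if h : e.1.1 = j0 then s ⟨e.1.2, fun h' => by
    have := pm e.2
    rw [h, h'] at this
    exact lt_irrefl _ this⟩
  else if h' : e.1.2 = j0 then s ⟨e.1.1, h⟩ + t e.1.1 * t j0
  else β ⟨(⟨e.1.1, h⟩, ⟨e.1.2, h'⟩), mp (pm e.2)⟩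

theorem ext_lt (t : J → ZMod 2) (α : prs J → ZMod 2) {k l : J} (h : l < k) :
    ext t α k l = α ⟨(l, k), mp h⟩ := by
  unfold Pool.Agent.N869.QT.L.ext
  rw [dif_pos (mp h)]

theorem ext_gt (t : J → ZMod 2) (α : prs J → ZMod 2) {k l : J} (h : k < l) :
    ext t α k l = α ⟨(k, l), mp h⟩ + t k * t l := by
  unfold Pool.Agent.N869.QT.L.ext
  rw [dif_neg (fun h' => lt_asymm h (pm h')), dif_pos (mp h)]

theorem ext_self (t : J → ZMod 2) (α : prs J → ZMod 2) (k : J) : ext t α k k = 0 := by
  unfold Pool.Agent.N869.QT.L.ext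
  rw [dif_neg (fun h' => lt_irrefl k (pm h')),
    dif_neg (fun h' => lt_irrefl k (pm h'))]

theorem ext_add (t : J → ZMod 2) (α : prs J → ZMod 2) {k l : J} (h : k ≠ l) :
    ext t α k l + ext t α l k = t k * t l := by
  rcases lt_or_gt_of_ne h with h | h
  · rw [ext_gt t α h, ext_lt t α h]
    have := z2_self (α ⟨(k, l), mp h⟩)
    linear_combination this
  · rw [ext_lt t α h, ext_gt t α h]
    have := z2_self (α ⟨(l, k), mp h⟩)
    linear_combination this

/-- the splitting of the completions -/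
noncomputable def spl (t : J → ZMod 2) (j0 : J) :
    (prs J → ZMod 2) ≃ (prs {k : J // k ≠ j0} → ZMod 2) × ({k : J // k ≠ j0} → ZMod 2) where
  toFun α := (res j0 α, col t j0 α)
  invFun q := glue t j0 q.1 q.2
  left_inv α := by
    funext e
    obtain ⟨⟨k, l⟩, he⟩ := e
    have hkl : k < l := pm he
    show glue t j0 (res j0 α) (col t j0 α) ⟨(k, l), he⟩ = α ⟨(k, l), he⟩
    unfold glue
    by_cases h : k = j0
    · rw [dif_pos h]
      subst h
      show ext t α l k = _
      rw [ext_lt t α hkl]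
    · rw [dif_neg h]
      by_cases h' : l = j0
      · rw [dif_pos h']
        subst h'
        show ext t α k l + t k * t l = _
        rw [ext_gt t α hkl]
        have := z2_self (t k * t l)
        linear_combination this
      · rw [dif_neg h']
        rfl
  right_inv q := by
    obtain ⟨β, s⟩ := q
    refine Prod.ext ?_ ?_
    · funext e
      obtain ⟨⟨⟨k, hk⟩, ⟨l, hl⟩⟩, he⟩ := e
      show glue t j0 β s ⟨(k, l), _⟩ = β ⟨(⟨k, hk⟩, ⟨l, hl⟩), he⟩
      unfold glue
      rw [dif_neg hk, dif_neg hl]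
    · funext k
      obtain ⟨k, hk⟩ := k
      show ext t (glue t j0 β s) k j0 = s ⟨k, hk⟩
      rcases lt_or_gt_of_ne hk with h | h
      · rw [ext_gt t _ h]
        unfold glue
        rw [dif_neg hk, dif_pos rfl]
        have := z2_self (t k * t j0)
        linear_combination this
      · rw [ext_lt t _ h]
        unfold glue
        rw [dif_pos rfl]

theorem ext_res (t : J → ZMod 2) (j0 : J) (α : prs J → ZMod 2) (k l : {k : J // k ≠ j0}) :
    ext (fun k : {k : J // k ≠ j0} => t k) (res j0 α) k l = ext t α k l := by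
  rcases lt_trichotomy (k : J) (l : J) with h | h | h
  · rw [ext_gt t α h, ext_gt _ _ (show k < l from h)]
    rfl
  · have : k = l := Subtype.ext h
    subst this
    rw [ext_self, ext_self]
  · rw [ext_lt t α h, ext_lt _ _ (show l < k from h)]
    rfl

theorem card_drop (j0 : J) (P : J → Prop) [DecidablePred P]
    [DecidablePred fun k : {k : J // k ≠ j0} => P k] :
    (univ.filter P).card ≤ (univ.filter fun k : {k : J // k ≠ j0} => P k).card + 1 := by
  have h1 : univ.filter P ⊆ insert j0 ((univ.filter fun k : {k : J // k ≠ j0} => P k).image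
      Subtype.val) := by
    intro k hk
    by_cases h : k = j0
    · rw [h]
      exact mem_insert_self _ _
    · refine mem_insert_of_mem (mem_image.2 ⟨⟨k, h⟩, mem_filter.2 ⟨mem_univ _, ?_⟩, rfl⟩)
      exact (mem_filter.1 hk).2
  calc _ ≤ _ := card_le_card h1
    _ ≤ _ := card_insert_le _ _
    _ ≤ _ := Nat.add_le_add_right card_image_le 1

theorem mem_Lc {I Q : Type} (E : I → Finset Q) (g : J → Q) (a : I) (k : J) :
    k ∈ Lc E g a ↔ g k ∈ E a := by
  unfold Pool.Agent.N869.QT.L.Lc
  rw [mem_filter]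
  exact ⟨fun h => h.2, fun h => ⟨mem_univ _, h⟩⟩

theorem Lc_sub {I Q : Type} (E : I → Finset Q) (g : J → Q) (a : I) (z : J)
    [DecidablePred fun k : J => k ≠ z] :
    Lc E (fun k : {k : J // k ≠ z} => g k) a = (Lc E g a).subtype fun k => k ≠ z := by
  ext k
  rw [mem_Lc, mem_subtype, mem_Lc]

end split

/-! ### The first case -/

section hyp

variable {U J : Type} [Fintype U] [Fintype J]

theorem hyp1 {I Q : Type} {K K0 : ℕ} {W : I → Finset U} {E : I → Finset Q} {g : J → Q}
    {tU : U → ZMod 2} {tJ : J → ZMod 2} {A : U → U → ZMod 2} {B : U → J → ZMod 2}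
    (h : HypK K W E g tU tJ A B) (hK : K0 ≤ K) (u0 : U) (hu0 : tU u0 = 1) (hW : ∀ a, u0 ∈ W a) :
    HypC K0 (fun a => (W a).subtype fun u => u ≠ u0) E g
      (fun u : {u : U // u ≠ u0} => A u u0) (fun u : {u : U // u ≠ u0} => tU u)
      (fun k => B u0 k + tJ k) tJ (fun u v : {u : U // u ≠ u0} => A u v)
      (fun (u : {u : U // u ≠ u0}) k => B u k) where
  many q := by
    refine le_trans (Nat.mul_le_mul hK ?_) (h.many q)
    have : Fintype.card {u : U // u ≠ u0} ≤ Fintype.card U :=
      Fintype.card_le_of_injective (fun u : {u : U // u ≠ u0} => u.1) Subtype.val_injective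
    omega
  par a := by
    have h1 := h.par a
    rw [sum_split (W a) u0 (hW a), hu0] at h1
    linear_combination h1
  recip u v huv := h.recip u v fun h' => huv (Subtype.ext h')
  nd q w e hwe := by
    set w1 : U → ZMod 2 := fun u => if hu : u = u0 then e else w ⟨u, hu⟩ with hw1
    have e0 : w1 u0 = e := dif_pos rfl
    have e1 : ∀ u : {u : U // u ≠ u0}, w1 u = w u := fun u => dif_neg u.2
    obtain ⟨k, hk1, hk2, hk3⟩ := h.nd q w1 (by
      rcases hwe with ⟨u, hu⟩ | he
      · exact ⟨u, by rw [e1]; exact hu⟩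
      · exact ⟨u0, by rw [e0]; exact he⟩)
    have e2 : ∑ u, w1 u * B u k = e * B u0 k + ∑ u : {u : U // u ≠ u0}, w u * B u k := by
      rw [Fintype.sum_eq_add_sum_subtype_ne _ u0, e0]
      simp only [e1]
    rw [e2] at hk3
    refine ⟨⟨k, hk1, ?_⟩, ⟨k, hk1, ?_⟩⟩
    · simp only [hk2, mul_zero, add_zero]
      exact hk3
    · simp only [hk2, mul_zero, add_zero]
      exact hk3

theorem hyp2 {I Q : Type} [LinearOrder J] {K K0 : ℕ} {W : I → Finset U} {E : I → Finset Q}
    {g : J → Q} {tU : U → ZMod 2} {tJ : J → ZMod 2} {A : U → U → ZMod 2} {B : U → J → ZMod 2}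
    (h : HypK K W E g tU tJ A B) (hK : K0 + 1 ≤ K) (z : J) (hz : tJ z = 1)
    (hL : ∀ a, z ∈ Lc E g a) (s : {k : J // k ≠ z} → ZMod 2)
    (h1 : ∀ (q : Q) (w : U → ZMod 2), ∃ k : {k : J // k ≠ z}, g k = q ∧
      s k ≠ ∑ u, w u * (B u k + tU u * tJ k))
    (h2 : ∀ (q : Q) (w : U → ZMod 2), ∃ k : {k : J // k ≠ z}, g k = q ∧
      s k ≠ tJ k + ∑ u, w u * B u k) :
    HypC K0 W E (fun k : {k : J // k ≠ z} => g k) (fun u => B u z) tU s
      (fun k : {k : J // k ≠ z} => tJ k) A (fun u (k : {k : J // k ≠ z}) => B u k) where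
  many q := by
    have e1 := h.many q
    have e2 := card_drop z fun k => g k = q ∧ tJ k = 1
    have e3 : Fintype.card {k : J // k ≠ z} ≤ Fintype.card J :=
      Fintype.card_le_of_injective (fun u : {k : J // k ≠ z} => u.1) Subtype.val_injective
    have e4 : Nat.log 2 (Fintype.card {k : J // k ≠ z}) ≤ Nat.log 2 (Fintype.card J) :=
      Nat.log_mono_right e3
    have e5 : (K0 + 1) * (Fintype.card U + Nat.log 2 (Fintype.card J) + 1) ≤
        K * (Fintype.card U + Nat.log 2 (Fintype.card J) + 1) := Nat.mul_le_mul_right _ hK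
    have e6 : K0 * (Fintype.card U + Nat.log 2 (Fintype.card {k : J // k ≠ z}) + 1) ≤
        K0 * (Fintype.card U + Nat.log 2 (Fintype.card J) + 1) :=
      Nat.mul_le_mul_left _ (by omega)
    have e7 : (K0 + 1) * (Fintype.card U + Nat.log 2 (Fintype.card J) + 1) =
      K0 * (Fintype.card U + Nat.log 2 (Fintype.card J) + 1) +
        (Fintype.card U + Nat.log 2 (Fintype.card J) + 1) := by ring
    have e8 : K0 * (Fintype.card U + Nat.log 2 (Fintype.card {k : J // k ≠ z}) + 1) ≤
      (univ.filter fun k : {k : J // k ≠ z} => g k = q ∧ tJ k = 1).card := by omega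
    exact e8
  par a := by
    have e1 := h.par a
    rw [sum_split (Lc E g a) z (hL a), hz] at e1
    rw [Lc_sub]
    linear_combination e1
  recip := h.recip
  nd q w e hwe := by
    rcases z2 e with he | he
    · have hw : ∃ u, w u ≠ 0 := hwe.resolve_right fun h' => h' he
      obtain ⟨k, hk1, hk2, hk3⟩ := h.nd q w hw
      have hk : k ≠ z := by
        intro h'
        rw [h', hz] at hk2
        exact one_ne_zero hk2
      refine ⟨⟨⟨k, hk⟩, hk1, ?_⟩, ⟨⟨k, hk⟩, hk1, ?_⟩⟩
      · simp only [he, hk2, zero_mul, zero_add, mul_zero, add_zero]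
        exact hk3
      · simp only [he, zero_mul, zero_add]
        exact hk3
    · rw [he]
      obtain ⟨k, hk1, hk2⟩ := h1 q w
      obtain ⟨l, hl1, hl2⟩ := h2 q w
      refine ⟨⟨k, hk1, ?_⟩, ⟨l, hl1, ?_⟩⟩
      · intro h3
        refine hk2 ?_
        have h4 := z2_self (∑ u, w u * (B u k + tU u * tJ k))
        linear_combination h3 - h4
      · intro h3
        refine hl2 ?_
        have h4 := z2_self (tJ l + ∑ u, w u * B u l)
        linear_combination h3 - h4

end hyp

theorem c2_mem : 0 ≤ c2 ∧ c2 ≤ 1 := by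
  have h := Pool.Agent.N916.GB.eta_bounds
  have e : c2 = Pool.Agent.N916.GB.eta := rfl
  rw [e]
  constructor <;> linarith [h.1, h.2]

/-- the number of the functions with given values on a set -/
theorem card_fix {V : Type} [Fintype V] [DecidableEq V] (T : Finset V) (f : V → ZMod 2)
    (S : Finset (V → ZMod 2)) (hS : ∀ s ∈ S, ∀ k ∈ T, s k = f k) :
    S.card * 2 ^ T.card ≤ 2 ^ Fintype.card V := by
  have h1 : S ⊆ Fintype.piFinset fun k => if k ∈ T then {f k} else univ := by
    intro s hs
    rw [Fintype.mem_piFinset]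
    intro k
    by_cases hk : k ∈ T
    · rw [if_pos hk, mem_singleton]
      exact hS s hs k hk
    · rw [if_neg hk]
      exact mem_univ _
  have h2 : (Fintype.piFinset fun k => if k ∈ T then {f k} else (univ : Finset (ZMod 2))).card *
      2 ^ T.card = 2 ^ Fintype.card V := by
    rw [Fintype.card_piFinset]
    have e1 : (2 : ℕ) ^ T.card = ∏ k, if k ∈ T then 2 else 1 := by
      rw [Fintype.prod_ite_mem, prod_const]
    rw [e1, ← prod_mul_distrib]
    have e2 : ∀ k ∈ (univ : Finset V), (if k ∈ T then {f k} else (univ : Finset (ZMod 2))).card *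
        (if k ∈ T then 2 else 1) = 2 := by
      intro k _
      by_cases hk : k ∈ T
      · rw [if_pos hk, if_pos hk, card_singleton, one_mul]
      · rw [if_neg hk, if_neg hk, card_univ, ZMod.card, mul_one]
    rw [prod_congr rfl e2, prod_const, card_univ]
  calc _ ≤ _ := Nat.mul_le_mul_right _ (card_le_card h1)
    _ = _ := h2

/-! ### The two cases -/

theorem aux1 {I Q : Type} [Fintype I] {E : I → Finset Q} {ε : ℝ} {K0 K : ℕ} (hK : K0 ≤ K)
    (h0 : LAEC E ε K0) {U J : Type} [Fintype U] [Fintype J] [LinearOrder J] {W : I → Finset U}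
    {g : J → Q} {tU : U → ZMod 2} {tJ : J → ZMod 2} {A : U → U → ZMod 2} {B : U → J → ZMod 2}
    (h : HypK K W E g tU tJ A B) (u0 : U) (hu0 : tU u0 = 1) (hW : ∀ a, u0 ∈ W a) :
    |((univ.filter fun α : prs J → ZMod 2 =>
      ∀ a, GdK (W a) (Lc E g a) tU tJ A B (ext tJ α)).card : ℝ) /
      2 ^ (prs J).card - c2 ^ Fintype.card I| ≤ ε := by
  have h1 := h0 _ _ _ _ _ _ _ _ _ _ (hyp1 h hK u0 hu0 hW)
  have h2 : (univ.filter fun α : prs J → ZMod 2 =>
      ∀ a, GdK (W a) (Lc E g a) tU tJ A B (ext tJ α)) =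
      univ.filter fun α : prs J → ZMod 2 =>
      ∀ a, GdL ((W a).subtype fun u => u ≠ u0) (Lc E g a)
      (fun u : {u : U // u ≠ u0} => A u u0) (fun u : {u : U // u ≠ u0} => tU u)
      (fun k => B u0 k + tJ k) tJ (fun u v : {u : U // u ≠ u0} => A u v)
      (fun (u : {u : U // u ≠ u0}) k => B u k) (ext tJ α) := by
    refine filter_congr fun α _ => ?_
    refine forall_congr' fun a => ?_
    exact red1 (W a) (Lc E g a) tU tJ A B (ext tJ α) h.recip (fun k l hkl => ext_add tJ α hkl)
      (h.par a) u0 (hW a) hu0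
  rw [h2]
  exact h1

theorem aux2 {I Q : Type} [Fintype I] [Fintype Q] {E : I → Finset Q} {ε : ℝ} (hε : 0 < ε)
    {K0 M : ℕ} (hM : (Fintype.card Q : ℝ) * (1 / 2 : ℝ) ^ M ≤ ε / 2)
    (h0 : LAEC E (ε / 2) K0) {U J : Type} [Fintype U] [Fintype J] [LinearOrder J]
    {W : I → Finset U}
    {g : J → Q} {tU : U → ZMod 2} {tJ : J → ZMod 2} {A : U → U → ZMod 2} {B : U → J → ZMod 2}
    (h : HypK (K0 + M + 2) W E g tU tJ A B) (q0 : Q) (hq0 : ∀ a, q0 ∈ E a) :
    |((univ.filter fun α : prs J → ZMod 2 =>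
      ∀ a, GdK (W a) (Lc E g a) tU tJ A B (ext tJ α)).card : ℝ) /
      2 ^ (prs J).card - c2 ^ Fintype.card I| ≤ ε := by
  have hmany : ∀ q : Q, Fintype.card U + M + 2 ≤
      (univ.filter fun k => g k = q ∧ tJ k = 1).card := by
    intro q
    refine le_trans ?_ (h.many q)
    have e1 : (K0 + M + 2) * (Fintype.card U + Nat.log 2 (Fintype.card J) + 1) =
      K0 * (Fintype.card U + Nat.log 2 (Fintype.card J) + 1) +
      M * (Fintype.card U + Nat.log 2 (Fintype.card J)) + M +
      2 * (Fintype.card U + Nat.log 2 (Fintype.card J)) + 2 := by ring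
    rw [e1]
    have := Nat.zero_le (K0 * (Fintype.card U + Nat.log 2 (Fintype.card J) + 1))
    have := Nat.zero_le (M * (Fintype.card U + Nat.log 2 (Fintype.card J)))
    omega
  obtain ⟨z, hz0, hz⟩ : ∃ z, g z = q0 ∧ tJ z = 1 := by
    have h1 : 0 < (univ.filter fun k => g k = q0 ∧ tJ k = 1).card := by
      have := hmany q0
      omega
    obtain ⟨k, hk⟩ := card_pos.1 h1
    exact ⟨k, (mem_filter.1 hk).2⟩
  have hL : ∀ a, z ∈ Lc E g a := by
    intro a
    rw [mem_Lc, hz0]
    exact hq0 a
  set J' := {k : J // k ≠ z} with hJ'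
  set F : (prs J' → ZMod 2) → (J' → ZMod 2) → Prop := fun β s => ∀ a,
    GdL (W a) (Lc E (fun k : J' => g k) a) (fun u => B u z) tU s (fun k : J' => tJ k) A
      (fun u (k : J') => B u k) (ext (fun k : J' => tJ k) β) with hF
  have e0 : ∀ α : prs J → ZMod 2, (∀ a, GdK (W a) (Lc E g a) tU tJ A B (ext tJ α)) ↔
      F (spl tJ z α).1 (spl tJ z α).2 := by
    intro α
    refine forall_congr' fun a => ?_
    rw [red2 (W a) (Lc E g a) tU tJ A B (ext tJ α) h.recip (fun k l hkl => ext_add tJ α hkl)
      (h.par a) z (hL a)]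
    have e1 : (fun k l : J' => ext tJ α k l) = ext (fun k : J' => tJ k) (res z α) := by
      funext k l
      exact (ext_res tJ z α k l).symm
    rw [e1, ← Lc_sub]
    rfl
  have e1 : (univ.filter fun α : prs J → ZMod 2 =>
      ∀ a, GdK (W a) (Lc E g a) tU tJ A B (ext tJ α)).card =
      ∑ s : J' → ZMod 2, (univ.filter fun β => F β s).card := by
    have e2 : (univ.filter fun α : prs J → ZMod 2 =>
        ∀ a, GdK (W a) (Lc E g a) tU tJ A B (ext tJ α)).card =
        (univ.filter fun q : (prs J' → ZMod 2) × (J' → ZMod 2) => F q.1 q.2).card := by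
      refine card_bij' (fun α _ => spl tJ z α) (fun q _ => (spl tJ z).symm q) ?_ ?_ ?_ ?_
      · intro α hα
        exact mem_filter.2 ⟨mem_univ _, (e0 α).1 (mem_filter.1 hα).2⟩
      · intro q hq
        refine mem_filter.2 ⟨mem_univ _, (e0 _).2 ?_⟩
        rw [Equiv.apply_symm_apply]
        exact (mem_filter.1 hq).2
      · intro α _
        exact Equiv.symm_apply_apply _ _
      · intro q _
        exact Equiv.apply_symm_apply _ _
    rw [e2, card_filter, Fintype.sum_prod_type_right]
    refine sum_congr rfl fun s _ => ?_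
    rw [card_filter]
  have e3 : (2 : ℝ) ^ (prs J).card = 2 ^ (prs J').card * 2 ^ Fintype.card J' := by
    have := Fintype.card_congr (spl tJ z)
    rw [Fintype.card_prod, Fintype.card_fun, Fintype.card_fun, Fintype.card_fun, ZMod.card,
      Fintype.card_coe, Fintype.card_coe] at this
    exact_mod_cast this
  set P : ℝ := 2 ^ (prs J').card with hP
  have hP0 : 0 < P := by positivity
  set R : ℝ := 2 ^ Fintype.card J' with hR
  have hR0 : 0 < R := by positivity
  set f1 : (U → ZMod 2) → J' → ZMod 2 := fun w k => ∑ u, w u * (B u k.1 + tU u * tJ k.1) with hf1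
  set f2 : (U → ZMod 2) → J' → ZMod 2 := fun w k => tJ k.1 + ∑ u, w u * B u k.1 with hf2
  set bd : (Q × (U → ZMod 2)) → Finset (J' → ZMod 2) := fun p =>
    (univ.filter fun s => ∀ k : J', g k = p.1 → s k = f1 p.2 k) ∪
    (univ.filter fun s => ∀ k : J', g k = p.1 → s k = f2 p.2 k) with hbd
  set bad : Finset (J' → ZMod 2) := univ.biUnion bd with hbad
  have hfix : ∀ (q : Q) (f : J' → ZMod 2),
      (univ.filter fun s : J' → ZMod 2 => ∀ k : J', g k = q → s k = f k).card *
        2 ^ (Fintype.card U + M + 1) ≤ 2 ^ Fintype.card J' := by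
    intro q f
    have k1 := card_fix (univ.filter fun k : J' => g k = q) f
      (univ.filter fun s : J' → ZMod 2 => ∀ k : J', g k = q → s k = f k)
      (fun s hs k hk => (mem_filter.1 hs).2 k (mem_filter.1 hk).2)
    have k2 : Fintype.card U + M + 1 ≤ (univ.filter fun k : J' => g k = q).card := by
      have l1 := hmany q
      have l2 := card_drop z fun k => g k = q ∧ tJ k = 1
      have l3 : (univ.filter fun k : {k : J // k ≠ z} => g k = q ∧ tJ k = 1).card ≤
          (univ.filter fun k : {k : J // k ≠ z} => g k = q).card := by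
        refine card_le_card fun k hk => ?_
        rw [mem_filter] at hk ⊢
        exact ⟨hk.1, hk.2.1⟩
      have l4 : Fintype.card U + M + 1 ≤
          (univ.filter fun k : {k : J // k ≠ z} => g k = q).card := by omega
      exact l4
    calc _ ≤ _ := Nat.mul_le_mul_left _ (Nat.pow_le_pow_right (by norm_num) k2)
      _ ≤ _ := k1
  have hb : bad.card * 2 ^ M ≤ Fintype.card Q * 2 ^ Fintype.card J' := by
    have k1 : bad.card * 2 ^ (Fintype.card U + M + 1) ≤
        (Fintype.card Q * 2 ^ Fintype.card U) * (2 * 2 ^ Fintype.card J') := by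
      calc bad.card * 2 ^ (Fintype.card U + M + 1)
          ≤ (∑ p, (bd p).card) * 2 ^ (Fintype.card U + M + 1) :=
            Nat.mul_le_mul_right _ card_biUnion_le
        _ = ∑ p, (bd p).card * 2 ^ (Fintype.card U + M + 1) := by rw [sum_mul]
        _ ≤ ∑ _p : Q × (U → ZMod 2), 2 * 2 ^ Fintype.card J' := by
            refine sum_le_sum fun p _ => ?_
            have l1 := hfix p.1 (f1 p.2)
            have l2 := hfix p.1 (f2 p.2)
            have l3 : (bd p).card ≤
                (univ.filter fun s : J' → ZMod 2 => ∀ k : J', g k = p.1 → s k = f1 p.2 k).card +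
                (univ.filter fun s : J' → ZMod 2 => ∀ k : J', g k = p.1 → s k = f2 p.2 k).card :=
              card_union_le _ _
            calc _ ≤ _ := Nat.mul_le_mul_right _ l3
              _ ≤ _ := by
                rw [add_mul]
                omega
        _ = _ := by
            rw [sum_const, card_univ, Fintype.card_prod, Fintype.card_fun, ZMod.card, smul_eq_mul]
    have k2 : bad.card * 2 ^ M * (2 ^ (Fintype.card U + 1)) ≤
        Fintype.card Q * 2 ^ Fintype.card J' * (2 ^ (Fintype.card U + 1)) := by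
      calc _ = bad.card * 2 ^ (Fintype.card U + M + 1) := by ring
        _ ≤ _ := k1
        _ = _ := by ring
    exact Nat.le_of_mul_le_mul_right k2 (by positivity)
  have hck : 0 ≤ c2 ^ Fintype.card I ∧ c2 ^ Fintype.card I ≤ 1 :=
    ⟨pow_nonneg c2_mem.1 _, pow_le_one₀ c2_mem.1 c2_mem.2⟩
  have hgood : ∀ s : J' → ZMod 2, s ∉ bad →
      |((univ.filter fun β => F β s).card : ℝ) - P * c2 ^ Fintype.card I| ≤ ε / 2 * P := by
    intro s hs
    have h1 := hyp2 h (show K0 + 1 ≤ K0 + M + 2 by omega) z hz hL s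
      (fun q w => by
        by_contra hcon
        push Not at hcon
        exact hs (mem_biUnion.2 ⟨(q, w), mem_univ _, mem_union_left _
          (mem_filter.2 ⟨mem_univ _, hcon⟩)⟩))
      (fun q w => by
        by_contra hcon
        push Not at hcon
        exact hs (mem_biUnion.2 ⟨(q, w), mem_univ _, mem_union_right _
          (mem_filter.2 ⟨mem_univ _, hcon⟩)⟩))
    have h2 := h0 _ _ _ _ _ _ _ _ _ _ h1
    have h3 : |((univ.filter fun β => F β s).card : ℝ) / P - c2 ^ Fintype.card I| ≤ ε / 2 := h2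
    have h4 : ((univ.filter fun β => F β s).card : ℝ) - P * c2 ^ Fintype.card I =
        P * (((univ.filter fun β => F β s).card : ℝ) / P - c2 ^ Fintype.card I) := by
      field_simp
    rw [h4, abs_mul, abs_of_pos hP0, mul_comm]
    exact mul_le_mul_of_nonneg_right h3 hP0.le
  have hall : ∀ s : J' → ZMod 2,
      |((univ.filter fun β => F β s).card : ℝ) - P * c2 ^ Fintype.card I| ≤ P := by
    intro s
    have h1 : ((univ.filter fun β => F β s).card : ℝ) ≤ P := by
      have : (univ.filter fun β => F β s).card ≤ Fintype.card (prs J' → ZMod 2) := card_le_univ _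
      rw [Fintype.card_fun, ZMod.card, Fintype.card_coe] at this
      rw [hP]
      exact_mod_cast this
    have h2 : (0 : ℝ) ≤ ((univ.filter fun β => F β s).card : ℝ) := Nat.cast_nonneg _
    have h3 : 0 ≤ P * c2 ^ Fintype.card I := mul_nonneg hP0.le hck.1
    have h4 : P * c2 ^ Fintype.card I ≤ P := by nlinarith [hck.2]
    rw [abs_le]
    constructor <;> linarith
  have e4 : |((∑ s : J' → ZMod 2, (univ.filter fun β => F β s).card : ℕ) : ℝ) -
      P * R * c2 ^ Fintype.card I| ≤ ε / 2 * (P * R) + bad.card * P := by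
    have h1 : ((∑ s : J' → ZMod 2, (univ.filter fun β => F β s).card : ℕ) : ℝ) -
        P * R * c2 ^ Fintype.card I =
        ∑ s : J' → ZMod 2, (((univ.filter fun β => F β s).card : ℝ) - P * c2 ^ Fintype.card I) := by
      rw [sum_sub_distrib, sum_const, card_univ, Fintype.card_fun, ZMod.card]
      push_cast
      rw [nsmul_eq_mul]
      push_cast
      rw [hR]
      ring
    rw [h1]
    calc _ ≤ ∑ s : J' → ZMod 2, |((univ.filter fun β => F β s).card : ℝ) -
          P * c2 ^ Fintype.card I| := abs_sum_le_sum_abs _ _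
      _ ≤ ∑ s : J' → ZMod 2, (ε / 2 * P + if s ∈ bad then P else 0) := by
          refine sum_le_sum fun s _ => ?_
          by_cases hs : s ∈ bad
          · rw [if_pos hs]
            have := hall s
            have h2 : 0 ≤ ε / 2 * P := by positivity
            linarith
          · rw [if_neg hs, add_zero]
            exact hgood s hs
      _ = ε / 2 * (P * R) + bad.card * P := by
          rw [sum_add_distrib, sum_const, card_univ, Fintype.card_fun, ZMod.card,
            sum_ite_mem, univ_inter, sum_const]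
          rw [nsmul_eq_mul, nsmul_eq_mul]
          push_cast
          rw [hR]
          ring
  have e5 : (bad.card : ℝ) ≤ ε / 2 * R := by
    have h1 : (bad.card : ℝ) * 2 ^ M ≤ Fintype.card Q * R := by
      rw [hR]
      exact_mod_cast hb
    have h3 : (2 : ℝ) ^ M * (1 / 2 : ℝ) ^ M = 1 := by
      rw [← mul_pow]
      norm_num
    have h4 : 0 < (2 : ℝ) ^ M := by positivity
    calc (bad.card : ℝ) = (bad.card * 2 ^ M) * (1 / 2 : ℝ) ^ M := by rw [mul_assoc, h3, mul_one]
      _ ≤ (Fintype.card Q * R) * (1 / 2 : ℝ) ^ M := mul_le_mul_of_nonneg_right h1 (by positivity)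
      _ = (Fintype.card Q * (1 / 2 : ℝ) ^ M) * R := by ring
      _ ≤ ε / 2 * R := mul_le_mul_of_nonneg_right hM hR0.le
  rw [e1, e3]
  have e6 : ((∑ s : J' → ZMod 2, (univ.filter fun β => F β s).card : ℕ) : ℝ) / (P * R) -
      c2 ^ Fintype.card I = (((∑ s : J' → ZMod 2, (univ.filter fun β => F β s).card : ℕ) : ℝ) -
      P * R * c2 ^ Fintype.card I) / (P * R) := by
    field_simp
  rw [e6, abs_div, abs_of_pos (mul_pos hP0 hR0), div_le_iff₀ (mul_pos hP0 hR0)]
  refine e4.trans ?_
  have := mul_le_mul_of_nonneg_right e5 hP0.le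
  linarith

/-- ZE-A-LA -/
theorem t_LAKQ : S_LAKQ := by
  intro hLAC I Q _ _ E hE ε hε
  obtain ⟨K0, h0⟩ := hLAC I Q E hE (ε / 2) (by linarith)
  obtain ⟨M, hM⟩ := exists_pow_lt_of_lt_one
    (show 0 < ε / 2 / ((Fintype.card Q : ℝ) + 1) by positivity) (show (1 / 2 : ℝ) < 1 by norm_num)
  have hM2 : (Fintype.card Q : ℝ) * (1 / 2 : ℝ) ^ M ≤ ε / 2 := by
    have h1 : (0 : ℝ) < (Fintype.card Q : ℝ) + 1 := by positivity
    rw [lt_div_iff₀ h1] at hM
    have h2 : (0 : ℝ) < (1 / 2 : ℝ) ^ M := by positivity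
    nlinarith
  refine ⟨K0 + M + 2, ?_⟩
  intro U J _ _ _ W g tU tJ A B h
  rcases h.dist with ⟨u0, hu0, hW⟩ | ⟨q0, hq0⟩
  · exact (aux1 (show K0 ≤ K0 + M + 2 by omega) h0 h u0 hu0 hW).trans (by linarith)
  · exact aux2 hε hM2 h0 h q0 hq0

end Pool.Agent.N196.ZE.LAKQ
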